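import Pool.Agent.H4Cnt.Point

/-!
Counting points of the hyperplane by the primes at which some exponent is not divisible by `m`.
-/

namespace Pool.Agent.H4Fermat

open Finset Pool.Agent.H4Cnt

/-- Every non-zero natural number is `w * u ^ m` with `w` composed of the primes with exponent not
divisible by `m`. -/
theorem exists_power_part (m : ℕ) (hm : 1 ≤ m) (k : ℕ) (hk : k ≠ 0) :
    ∃ w u : ℕ, 1 ≤ u ∧ k = w * u ^ m ∧ ∀ p : ℕ, p.Prime → p ∣ w → ¬ m ∣ padicValNat p k := by
  classical
  set u := Nat.findGreatest (fun u => u ^ m ∣ k) k with hu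
  have h1k : 1 ≤ k := Nat.one_le_iff_ne_zero.2 hk
  have hP : u ^ m ∣ k := Nat.findGreatest_spec (P := fun u => u ^ m ∣ k) h1k (by simp)
  have hu1 : 1 ≤ u := Nat.le_findGreatest h1k (by simp)
  obtain ⟨w, hw⟩ := hP
  refine ⟨w, u, hu1, by rw [hw]; ring, ?_⟩
  intro p hp hpw hdiv
  have : Fact p.Prime := ⟨hp⟩
  have hw0 : w ≠ 0 := by
    rintro rfl
    rw [mul_zero] at hw
    exact hk hw
  have hu0 : u ^ m ≠ 0 := pow_ne_zero _ (by omega)
  have hval : padicValNat p k = m * padicValNat p u + padicValNat p w := by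
    conv_lhs => rw [hw]
    rw [padicValNat.mul hu0 hw0, padicValNat.pow]
  rw [hval] at hdiv
  have hmw : m ∣ padicValNat p w := (Nat.dvd_add_right (dvd_mul_right m _)).1 hdiv
  have hpos : 0 < padicValNat p w := by
    rw [Nat.pos_iff_ne_zero]
    intro h0
    have := (padicValNat_dvd_iff_le (p := p) hw0 (n := 1)).1 (by simpa using hpw)
    omega
  have hle : m ≤ padicValNat p w := Nat.le_of_dvd hpos hmw
  have hpm : p ^ m ∣ w := (padicValNat_dvd_iff_le (p := p) hw0).2 hle
  have hbig : (u * p) ^ m ∣ k := by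
    rw [mul_pow, hw]
    exact mul_dvd_mul_left _ hpm
  have hupk : u * p ≤ k := by
    have h2 : u * p ∣ k := (dvd_pow_self (u * p) (by omega)).trans hbig
    exact Nat.le_of_dvd (by omega) h2
  have h3 : u * p ≤ u := Nat.le_findGreatest hupk hbig
  have h4 := hp.two_le
  nlinarith

theorem exists_power_part_int (m : ℕ) (hm : 1 ≤ m) (z : ℤ) (hz : z ≠ 0) :
    ∃ (w : ℤ) (u : ℕ), 1 ≤ u ∧ w ≠ 0 ∧ z = w * u ^ m ∧
      ∀ p : ℕ, p.Prime → (p : ℤ) ∣ w → ¬ m ∣ padicValInt p z := by
  obtain ⟨w, u, hu, hk, hp⟩ := exists_power_part m hm z.natAbs (Int.natAbs_ne_zero.2 hz)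
  refine ⟨z.sign * w, u, hu, ?_, ?_, ?_⟩
  · intro h
    rcases mul_eq_zero.1 h with h1 | h1
    · exact hz (Int.sign_eq_zero_iff_zero.1 h1)
    · rw [Nat.cast_eq_zero.1 h1, zero_mul] at hk
      exact hz (Int.natAbs_eq_zero.1 hk)
  · have h1 : (z.natAbs : ℤ) = w * u ^ m := by exact_mod_cast hk
    conv_lhs => rw [← Int.sign_mul_natAbs z, h1]
    ring
  · intro p hpp hpw
    have h1 : p ∣ w := by
      have h2 := Int.natCast_dvd.1 hpw
      rw [Int.natAbs_mul, Int.natAbs_sign_of_ne_zero hz, one_mul, Int.natAbs_natCast] at h2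
      exact h2
    exact hp p hpp h1

/-- The integers `w * u ^ m` with `w` composed of primes dividing `E`. -/
noncomputable def cand (m B U E : ℕ) : Finset ℤ :=
  ((smoothZ E B) ×ˢ (Icc 1 U)).image fun q => q.1 * (q.2 : ℤ) ^ m

theorem card_cand_le (m B U E : ℕ) : (cand m B U E).card ≤ (smoothZ E B).card * U := by
  unfold cand
  refine card_image_le.trans ?_
  rw [card_product, Nat.card_Icc, Nat.add_sub_cancel]

open Classical in
/-- The vectors of length `t` built by the process. -/
noncomputable def goodG (c : ℕ → Finset ℤ) (D X : ℕ) : (t : ℕ) → Finset (Fin t → ℤ)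
  | 0 => {fun i => i.elim0}
  | t + 1 => (goodG c D X t).biUnion fun w =>
      if 0 < allowed D w t ∧ allowed D w t ≤ X then
        (c (allowed D w t)).image fun y => (Fin.snoc w y : Fin (t + 1) → ℤ)
      else ∅

theorem card_goodG_le (c : ℕ → Finset ℤ) (D X K : ℕ) (hK : ∀ E, 0 < E → E ≤ X → (c E).card ≤ K)
    (t : ℕ) : (goodG c D X t).card ≤ K ^ t := by
  classical
  induction t with
  | zero => simp [goodG]
  | succ t ih =>
    rw [goodG]
    refine card_biUnion_le.trans ?_
    have h : ∀ w ∈ goodG c D X t, (if 0 < allowed D w t ∧ allowed D w t ≤ X then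
        (c (allowed D w t)).image fun y => (Fin.snoc w y : Fin (t + 1) → ℤ)
        else ∅).card ≤ K := by
      intro w _
      split_ifs with h
      · exact card_image_le.trans (hK _ h.1 h.2)
      · simp
    refine (sum_le_sum h).trans ?_
    rw [sum_const, smul_eq_mul, pow_succ]
    exact Nat.mul_le_mul_right K ih

theorem mem_goodG (c : ℕ → Finset ℤ) (D X : ℕ) (t : ℕ) (z : Fin t → ℤ)
    (hE : ∀ i : Fin t, 0 < allowed D z i ∧ allowed D z i ≤ X)
    (hc : ∀ i : Fin t, z i ∈ c (allowed D z i)) : z ∈ goodG c D X t := by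
  classical
  induction t with
  | zero =>
    rw [goodG, mem_singleton]
    funext i
    exact i.elim0
  | succ t ih =>
    rw [goodG, mem_biUnion]
    have hle : ∀ i : Fin t, allowed D (Fin.init z) i = allowed D z i := fun i =>
      allowed_init D z i i.2.le
    refine ⟨Fin.init z, ?_, ?_⟩
    · apply ih
      · intro i
        rw [hle]
        exact hE i.castSucc
      · intro i
        rw [hle]
        exact hc i.castSucc
    · have hl : allowed D (Fin.init z) t = allowed D z t := allowed_init D z t le_rfl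
      have h2 := hE (Fin.last t)
      rw [Fin.val_last] at h2
      rw [hl, if_pos h2, mem_image]
      refine ⟨z (Fin.last t), ?_, Fin.snoc_init_self z⟩
      have := hc (Fin.last t)
      rwa [Fin.val_last] at this

open Classical in
/-- The primes for which some exponent is not divisible by `m`. -/
noncomputable def bad {n : ℕ} (m : ℕ) (z : Fin n → ℤ) : Finset ℕ :=
  (prs z).filter fun p => ∃ i, ¬ m ∣ padicValInt p (z i)

theorem bad_prime {n : ℕ} (m : ℕ) (z : Fin n → ℤ) (p : ℕ) (h : p ∈ bad m z) : p.Prime := by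
  classical
  unfold bad at h
  rw [mem_filter] at h
  exact prs_prime z p h.1

open Classical in
/-- The product of the bad primes whose pattern is not in the chain. -/
noncomputable def costB {n : ℕ} (m : ℕ) (z : Fin n → ℤ) (σ : Equiv.Perm (Fin n)) : ℕ :=
  ∏ p ∈ bad m z with ¬ InChain σ (pat z p), p

theorem costB_pos {n : ℕ} (m : ℕ) (z : Fin n → ℤ) (σ : Equiv.Perm (Fin n)) :
    0 < costB m z σ := by
  classical
  unfold costB
  apply prod_pos
  intro p hp
  rw [mem_filter] at hp
  exact (bad_prime m z p hp.1).pos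

theorem costB_le {n : ℕ} (hn : 2 ≤ n) (m : ℕ) {z : Fin n → ℤ} (hz : IsPt z)
    (σ : Equiv.Perm (Fin n)) (B : ℕ) (hB : ∀ i, |z i| ≤ B) : costB m z σ ≤ B ^ n := by
  classical
  refine le_trans ?_ (cost_le hn hz σ B hB)
  unfold costB cost
  apply prod_le_prod_of_subset_of_one_le'
  · intro p hp
    rw [mem_filter] at hp ⊢
    unfold bad at hp
    rw [mem_filter] at hp
    exact ⟨hp.1.1, hp.2⟩
  · intro p hp _
    rw [mem_filter] at hp
    exact (prs_prime z p hp.1).pos

theorem exists_perm_costB {n : ℕ} (m : ℕ) (z : Fin n → ℤ) :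
    ∃ σ : Equiv.Perm (Fin n), Real.log (costB m z σ) ≤
      (1 - 1 / (n.choose (n / 2) : ℝ)) * ∑ p ∈ bad m z, Real.log p := by
  classical
  obtain ⟨σ, hσ⟩ := exists_chain n (bad m z) (fun p => Real.log p)
    (fun p _ => Real.log_natCast_nonneg p) (fun p => pat z p)
  refine ⟨σ, ?_⟩
  have h1 : Real.log (costB m z σ) = ∑ p ∈ bad m z with ¬ InChain σ (pat z p), Real.log p := by
    unfold costB
    rw [Nat.cast_prod, Real.log_prod]
    intro p hp
    rw [mem_filter] at hp
    exact_mod_cast (bad_prime m z p hp.1).ne_zero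
  have h2 := sum_filter_add_sum_filter_not (bad m z) (fun p => InChain σ (pat z p))
    (fun p => Real.log (p : ℝ))
  rw [h1]
  linarith

theorem dvd_allowedB {n : ℕ} (m : ℕ) {z : Fin n → ℤ} (hz : IsPt z)
    (σ : Equiv.Perm (Fin n)) (i : Fin n) (p : ℕ) (hpb : p ∈ bad m z) (h : (p : ℤ) ∣ z (σ i)) :
    p ∣ allowed (costB m z σ) (z ∘ σ) i := by
  classical
  have hp := bad_prime m z p hpb
  unfold allowed
  by_cases hc : InChain σ (pat z p)
  · apply Dvd.dvd.mul_left
    obtain ⟨k, -, hk⟩ := hc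
    have hk1 : 1 ≤ k := by
      by_contra hcon
      have : k = 0 := by omega
      subst this
      apply pat_ne_univ hz p hp
      rw [← hk]
      have : seg n 0 = univ := by
        ext j
        simp [mem_seg]
      rw [this, image_univ_equiv]
    have hki : k ≤ (i : ℕ) := by
      have h1 : σ i ∈ pat z p := by
        rw [pat, mem_filter]
        exact ⟨mem_univ _, h⟩
      rw [← hk, mem_image] at h1
      obtain ⟨j, hj, hj2⟩ := h1
      rw [σ.injective hj2] at hj
      exact (mem_seg n k i).1 hj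
    refine Dvd.dvd.trans ?_ (dvd_prod_of_mem _ (mem_Icc.2 ⟨hk1, hki⟩))
    rw [← Int.natCast_dvd]
    have h2 := psum_add_tail (z ∘ σ) k
    have h3 : ∑ i, (z ∘ σ) i = 0 := by
      rw [← hz.sum]
      exact Equiv.sum_comp σ z
    have h4 : (p : ℤ) ∣ ∑ i ∈ seg n k, (z ∘ σ) i := by
      apply dvd_sum
      intro j hj
      have h5 : σ j ∈ pat z p := by
        rw [← hk]
        exact mem_image_of_mem _ hj
      rw [pat, mem_filter] at h5
      exact h5.2
    have h6 : psum (z ∘ σ) k = -∑ i ∈ seg n k, (z ∘ σ) i := by linarith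
    rw [h6]
    exact (dvd_neg).2 h4
  · apply Dvd.dvd.mul_right
    unfold costB
    apply dvd_prod_of_mem (fun p => p)
    rw [mem_filter]
    exact ⟨hpb, hc⟩

theorem init_mem_goodG {t : ℕ} (ht : 1 ≤ t) (m : ℕ) (hm : 1 ≤ m) {z : Fin (t + 1) → ℤ}
    (hz : IsPt z) (σ : Equiv.Perm (Fin (t + 1))) (B U : ℕ) (hB1 : 1 ≤ B)
    (hB : ∀ i, |z i| ≤ B) (hU : ∀ u : ℕ, u ^ m ≤ B → u ≤ U) :
    Fin.init (z ∘ σ) ∈ goodG (cand m B U) (costB m z σ) (bigX t B) t := by
  have hB' : ∀ i, |(z ∘ σ) i| ≤ B := fun i => hB (σ i)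
  apply mem_goodG
  · intro i
    rw [allowed_init _ _ _ i.2.le]
    unfold allowed
    constructor
    · apply Nat.mul_pos (costB_pos m z σ)
      apply prod_pos
      intro k hk
      rw [mem_Icc] at hk
      rw [Int.natAbs_pos]
      exact psum_perm_ne_zero hz σ k hk.1 (by omega)
    · unfold bigX
      apply Nat.mul_le_mul (costB_le (by omega) m hz σ B hB)
      calc ∏ k ∈ Icc 1 (i : ℕ), (psum (z ∘ σ) k).natAbs
          ≤ ∏ _k ∈ Icc 1 (i : ℕ), ((t + 1) * B) := by
            apply prod_le_prod'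
            intro k _
            exact natAbs_psum_le (z ∘ σ) B hB' k
        _ = ((t + 1) * B) ^ (i : ℕ) := by simp
        _ ≤ ((t + 1) * B) ^ (t + 1) := by
            apply Nat.pow_le_pow_right
            · positivity
            · omega
  · intro i
    rw [allowed_init _ _ _ i.2.le]
    have hz0 : z (σ i.castSucc) ≠ 0 := hz.ne_zero (by omega) _
    obtain ⟨w, u, hu1, hw0, hzw, hpw⟩ := exists_power_part_int m hm _ hz0
    have hum : (1 : ℤ) ≤ (u : ℤ) ^ m := by exact_mod_cast Nat.one_le_pow _ _ hu1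
    have habs : |w| * (u : ℤ) ^ m ≤ B := by
      have h1 := hB (σ i.castSucc)
      rw [hzw, abs_mul, abs_of_nonneg (show (0 : ℤ) ≤ (u : ℤ) ^ m by positivity)] at h1
      exact h1
    have hw1 : 1 ≤ |w| := Int.one_le_abs hw0
    change z (σ i.castSucc) ∈ _
    unfold cand
    rw [mem_image]
    refine ⟨(w, u), ?_, hzw.symm⟩
    rw [mem_product, mem_Icc]
    refine ⟨?_, hu1, ?_⟩
    · apply mem_smoothZ _ _ _ hw0
      · nlinarith
      · intro p hp hpd
        have hpz : (p : ℤ) ∣ z (σ i.castSucc) := by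
          rw [hzw]
          exact Dvd.dvd.mul_right hpd _
        apply dvd_allowedB m hz σ i.castSucc p _ hpz
        classical
        unfold bad
        rw [mem_filter]
        exact ⟨mem_prs (by omega) hz p hp _ hpz, _, hpw p hp hpd⟩
    · apply hU
      have h2 : (u : ℤ) ^ m ≤ B := by nlinarith
      exact_mod_cast h2

/-- The combinatorial bound. -/
theorem card_leB {t : ℕ} (ht : 1 ≤ t) (m : ℕ) (hm : 1 ≤ m) (B U Y K : ℕ) (hB1 : 1 ≤ B)
    (hU : ∀ u : ℕ, u ^ m ≤ B → u ≤ U)
    (hK : ∀ E, 0 < E → E ≤ bigX t B → (smoothZ E B).card ≤ K)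
    (V : Finset (Fin (t + 1) → ℤ)) (hV : ∀ z ∈ V, IsPt z ∧ (∀ i, |z i| ≤ B) ∧
      ∀ σ : Equiv.Perm (Fin (t + 1)), Real.log (costB m z σ) ≤
        (1 - 1 / ((t + 1).choose ((t + 1) / 2) : ℝ)) * ∑ p ∈ bad m z, Real.log p →
        costB m z σ ≤ Y) :
    V.card ≤ (K * U) ^ t * ((t + 1).factorial * Y) := by
  classical
  choose σ hσ using fun z : Fin (t + 1) → ℤ => exists_perm_costB m z
  have hKU : ∀ E, 0 < E → E ≤ bigX t B → (cand m B U E).card ≤ K * U := by
    intro E hE hEX
    exact (card_cand_le m B U E).trans (Nat.mul_le_mul_right U (hK E hE hEX))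
  have h := card_le_mul_card_image_of_maps_to (s := V)
    (t := (univ : Finset (Equiv.Perm (Fin (t + 1)))) ×ˢ Icc 1 Y)
    (f := fun z => (σ z, costB m z (σ z))) (by
      intro z hz
      rw [mem_product, mem_Icc]
      exact ⟨mem_univ _, costB_pos m z _, (hV z hz).2.2 (σ z) (hσ z)⟩) ((K * U) ^ t) (by
      rintro ⟨τ, D⟩ -
      refine le_trans ?_ (card_goodG_le (cand m B U) D (bigX t B) (K * U) hKU t)
      apply card_le_card_of_injOn (fun z => Fin.init (z ∘ τ))
      · intro z hz
        rw [mem_coe, mem_filter, Prod.mk.injEq] at hz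
        obtain ⟨hzV, hz1, hz2⟩ := hz
        have h2 := init_mem_goodG ht m hm (hV z hzV).1 (σ z) B U hB1 (hV z hzV).2.1 hU
        rw [hz2] at h2
        rw [mem_coe, ← hz1]
        exact h2
      · intro z hz z' hz' heq
        rw [mem_coe, mem_filter] at hz hz'
        have h1 := (hV z hz.1).1.sum
        have h2 := (hV z' hz'.1).1.sum
        rw [← Equiv.sum_comp τ, Fin.sum_univ_castSucc] at h1 h2
        have h3 : ∀ i : Fin t, z (τ i.castSucc) = z' (τ i.castSucc) := fun i => congrFun heq i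
        have h4 : z (τ (Fin.last t)) = z' (τ (Fin.last t)) := by
          have : ∑ i : Fin t, z (τ i.castSucc) = ∑ i : Fin t, z' (τ i.castSucc) :=
            sum_congr rfl fun i _ => h3 i
          linarith
        funext i
        obtain ⟨j, rfl⟩ := τ.surjective i
        refine Fin.lastCases h4 (fun j => h3 j) j)
  rw [card_product, card_univ, Fintype.card_perm, Fintype.card_fin, Nat.card_Icc,
    Nat.add_sub_cancel] at h
  exact h

end Pool.Agent.H4Fermat
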