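import Mathlib

/-!
Discriminants of number fields containing `m`-th roots.
-/

namespace Pool.Agent.H4Fermat

open Finset NumberField UniqueFactorizationMonoid

variable {F : Type} [Field F] [NumberField F]

/-- The exponent of `P` in the factorisation of `I`. -/
noncomputable def cnt (P I : Ideal (𝓞 F)) : ℕ := by
  classical
  exact Multiset.count P (normalizedFactors I)

theorem cnt_mul (P : Ideal (𝓞 F)) {I J : Ideal (𝓞 F)} (hI : I ≠ 0) (hJ : J ≠ 0) :
    cnt P (I * J) = cnt P I + cnt P J := by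
  classical
  unfold cnt
  rw [normalizedFactors_mul hI hJ, Multiset.count_add]

theorem cnt_pow (P I : Ideal (𝓞 F)) (k : ℕ) : cnt P (I ^ k) = k * cnt P I := by
  classical
  unfold cnt
  rw [normalizedFactors_pow, Multiset.count_nsmul]

theorem pow_dvd_iff_le_cnt {P I : Ideal (𝓞 F)} (hP : Prime P) (hI : I ≠ 0) (k : ℕ) :
    P ^ k ∣ I ↔ k ≤ cnt P I := by
  classical
  unfold cnt
  rw [pow_dvd_iff_le_emultiplicity, emultiplicity_eq_count_normalizedFactors hP.irreducible hI,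
    normalize_eq]
  exact Nat.cast_le

theorem span_intCast_ne_zero (z : ℤ) (hz : z ≠ 0) : Ideal.span {(z : 𝓞 F)} ≠ 0 := by
  rw [Ideal.zero_eq_bot, ne_eq, Ideal.span_singleton_eq_bot]
  exact_mod_cast hz

/-- The exponent of `P` in an integer. -/
theorem cnt_intCast {P : Ideal (𝓞 F)} (hP : Prime P) (p : ℕ) (hp : p.Prime)
    (hpP : P ∣ Ideal.span {((p : ℤ) : 𝓞 F)}) (z : ℤ) (hz : z ≠ 0) :
    cnt P (Ideal.span {(z : 𝓞 F)}) = padicValInt p z * cnt P (Ideal.span {((p : ℤ) : 𝓞 F)}) := by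
  have : Fact p.Prime := ⟨hp⟩
  obtain ⟨u, hu⟩ := (padicValInt_dvd z : (p : ℤ) ^ padicValInt p z ∣ z)
  have hpu : ¬ (p : ℤ) ∣ u := by
    intro h
    have h1 : (p : ℤ) ^ (padicValInt p z + 1) ∣ z := by
      rw [pow_succ]
      conv_rhs => rw [hu]
      exact mul_dvd_mul_left _ h
    rcases (padicValInt_dvd_iff _ z).1 h1 with h2 | h2
    · exact hz h2
    · omega
  have hu0 : u ≠ 0 := by
    rintro rfl
    exact hpu (dvd_zero _)
  have hspan : Ideal.span {(z : 𝓞 F)} =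
      Ideal.span {((p : ℤ) : 𝓞 F)} ^ padicValInt p z * Ideal.span {(u : 𝓞 F)} := by
    rw [Ideal.span_singleton_pow, Ideal.span_singleton_mul_span_singleton]
    congr 2
    conv_lhs => rw [hu]
    push_cast
    ring
  have hp0 : Ideal.span {((p : ℤ) : 𝓞 F)} ≠ 0 :=
    span_intCast_ne_zero _ (by exact_mod_cast hp.ne_zero)
  have hcu : cnt P (Ideal.span {(u : 𝓞 F)}) = 0 := by
    by_contra hne
    have h1 : P ^ 1 ∣ Ideal.span {(u : 𝓞 F)} :=
      (pow_dvd_iff_le_cnt hP (span_intCast_ne_zero u hu0) 1).2 (by omega)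
    rw [pow_one] at h1
    have hu1 : (u : 𝓞 F) ∈ P := by
      rw [Ideal.dvd_iff_le, Ideal.span_singleton_le_iff_mem] at h1
      exact h1
    have hp1 : ((p : ℤ) : 𝓞 F) ∈ P := by
      rw [Ideal.dvd_iff_le, Ideal.span_singleton_le_iff_mem] at hpP
      exact hpP
    have hcop : IsCoprime (p : ℤ) u :=
      (Int.prime_iff_natAbs_prime.2 (by simpa using hp) : Prime (p : ℤ)).coprime_iff_not_dvd.2 hpu
    obtain ⟨a, b, hab⟩ := hcop
    have h1' : (1 : 𝓞 F) ∈ P := by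
      have h3 : ((a * p + b * u : ℤ) : 𝓞 F) = 1 := by
        rw [hab]
        simp
      rw [← h3]
      push_cast
      apply P.add_mem
      · apply P.mul_mem_left
        exact_mod_cast hp1
      · exact P.mul_mem_left _ hu1
    exact hP.not_isUnit (by
      rw [Ideal.isUnit_iff]
      exact (Ideal.eq_top_iff_one P).2 h1')
  rw [hspan, cnt_mul P (pow_ne_zero _ hp0) (span_intCast_ne_zero u hu0), cnt_pow, hcu, add_zero]

/-- Ramification in a field containing an `m`-th root of `a / b`. -/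
theorem minFac_le_cnt {m : ℕ} (hm : m ≠ 0) {a b : ℤ} (ha : a ≠ 0) (hb : b ≠ 0) (y : F)
    (hy : y ^ m * b = a) {P : Ideal (𝓞 F)} (hP : Prime P) (p : ℕ) (hp : p.Prime)
    (hpP : P ∣ Ideal.span {((p : ℤ) : 𝓞 F)})
    (hab : ¬ (m : ℤ) ∣ (padicValInt p a : ℤ) - padicValInt p b) :
    m.minFac ≤ cnt P (Ideal.span {((p : ℤ) : 𝓞 F)}) := by
  obtain ⟨α, β, hβ, hαβ⟩ := IsFractionRing.div_surjective (A := 𝓞 F) y
  have hβ0 : β ≠ 0 := nonZeroDivisors.ne_zero hβ
  have hβF : algebraMap (𝓞 F) F β ≠ 0 := by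
    intro h
    exact hβ0 ((FaithfulSMul.algebraMap_injective (𝓞 F) F) (by rw [h, map_zero]))
  have hrel : α ^ m * (b : 𝓞 F) = β ^ m * (a : 𝓞 F) := by
    apply FaithfulSMul.algebraMap_injective (𝓞 F) F
    rw [map_mul, map_mul, map_pow, map_pow, map_intCast, map_intCast]
    rw [← hαβ, div_pow] at hy
    field_simp at hy
    linear_combination hy
  have hα0 : α ≠ 0 := by
    rintro rfl
    rw [zero_pow hm, zero_mul] at hrel
    rcases mul_eq_zero.1 hrel.symm with h | h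
    · exact hβ0 (pow_eq_zero_iff hm |>.1 h)
    · exact ha (by exact_mod_cast h)
  have hspan : Ideal.span {α} ^ m * Ideal.span {(b : 𝓞 F)} =
      Ideal.span {β} ^ m * Ideal.span {(a : 𝓞 F)} := by
    rw [Ideal.span_singleton_pow, Ideal.span_singleton_pow,
      Ideal.span_singleton_mul_span_singleton, Ideal.span_singleton_mul_span_singleton, hrel]
  have hsα : Ideal.span {α} ≠ 0 := by
    rw [Ideal.zero_eq_bot, ne_eq, Ideal.span_singleton_eq_bot]
    exact hα0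
  have hsβ : Ideal.span {β} ≠ 0 := by
    rw [Ideal.zero_eq_bot, ne_eq, Ideal.span_singleton_eq_bot]
    exact hβ0
  have h1 := congrArg (cnt P) hspan
  rw [cnt_mul P (pow_ne_zero _ hsα) (span_intCast_ne_zero b hb), cnt_mul P (pow_ne_zero _ hsβ)
    (span_intCast_ne_zero a ha), cnt_pow, cnt_pow, cnt_intCast hP p hp hpP a ha,
    cnt_intCast hP p hp hpP b hb] at h1
  set e := cnt P (Ideal.span {((p : ℤ) : 𝓞 F)})
  have h2 : (m : ℤ) ∣ ((padicValInt p a : ℤ) - padicValInt p b) * e := by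
    refine ⟨(cnt P (Ideal.span {α}) : ℤ) - cnt P (Ideal.span {β}), ?_⟩
    have h3 : (m : ℤ) * cnt P (Ideal.span {α}) + padicValInt p b * e =
        m * cnt P (Ideal.span {β}) + padicValInt p a * e := by exact_mod_cast h1
    linear_combination -h3
  have hp0 : Ideal.span {((p : ℤ) : 𝓞 F)} ≠ 0 :=
    span_intCast_ne_zero _ (by exact_mod_cast hp.ne_zero)
  have he1 : 1 ≤ e := (pow_dvd_iff_le_cnt hP hp0 1).1 (by rwa [pow_one])
  by_contra hlt
  apply hab
  have hcop : Nat.Coprime m e := by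
    by_contra hc
    obtain ⟨r, hr, hrm, hre⟩ := Nat.Prime.not_coprime_iff_dvd.1 hc
    have h4 : m.minFac ≤ r := Nat.minFac_le_of_dvd hr.two_le hrm
    have h5 : r ≤ e := Nat.le_of_dvd he1 hre
    omega
  exact (Nat.isCoprime_iff_coprime.2 hcop).dvd_of_dvd_mul_right h2

theorem pow_dvd_different {m : ℕ} (p : ℕ) (hp : p.Prime)
    (h : ∀ P : Ideal (𝓞 F), Prime P → P ∣ Ideal.span {((p : ℤ) : 𝓞 F)} →
      m ≤ cnt P (Ideal.span {((p : ℤ) : 𝓞 F)})) :
    Ideal.span {((p : ℤ) : 𝓞 F)} ^ (m - 1) ∣ differentIdeal ℤ (𝓞 F) ^ m := by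
  classical
  have hp0 : Ideal.span {((p : ℤ) : 𝓞 F)} ≠ 0 :=
    span_intCast_ne_zero _ (by exact_mod_cast hp.ne_zero)
  have hD0 : differentIdeal ℤ (𝓞 F) ≠ 0 := differentIdeal_ne_bot
  rw [dvd_iff_normalizedFactors_le_normalizedFactors (pow_ne_zero _ hp0) (pow_ne_zero _ hD0),
    Multiset.le_iff_count]
  intro P
  change cnt P _ ≤ cnt P _
  rw [cnt_pow, cnt_pow]
  by_cases hP0 : cnt P (Ideal.span {((p : ℤ) : 𝓞 F)}) = 0
  · rw [hP0, mul_zero]
    exact Nat.zero_le _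
  have hmem : P ∈ normalizedFactors (Ideal.span {((p : ℤ) : 𝓞 F)}) := by
    unfold cnt at hP0
    exact Multiset.one_le_count_iff_mem.1 (by omega)
  have hPp : Prime P := prime_of_normalized_factor P hmem
  have hdvd : P ∣ Ideal.span {((p : ℤ) : 𝓞 F)} := dvd_of_mem_normalizedFactors hmem
  have hmle := h P hPp hdvd
  set e := cnt P (Ideal.span {((p : ℤ) : 𝓞 F)}) with he
  have hmap : (Ideal.span {(p : ℤ)}).map (algebraMap ℤ (𝓞 F)) =
      Ideal.span {((p : ℤ) : 𝓞 F)} := by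
    rw [Ideal.map_span, Set.image_singleton]
    rfl
  have : (Ideal.span {(p : ℤ)}).IsMaximal :=
    PrincipalIdealRing.isMaximal_of_irreducible (Nat.prime_iff_prime_int.1 hp).irreducible
  have hpe : P ^ e ∣ (Ideal.span {(p : ℤ)}).map (algebraMap ℤ (𝓞 F)) := by
    rw [hmap]
    exact (pow_dvd_iff_le_cnt hPp hp0 e).2 le_rfl
  have hd := pow_sub_one_dvd_differentIdeal ℤ P e (p := Ideal.span {(p : ℤ)}) (by
    rw [ne_eq, Ideal.span_singleton_eq_bot]
    exact_mod_cast hp.ne_zero) hpe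
  have hle : e - 1 ≤ cnt P (differentIdeal ℤ (𝓞 F)) := (pow_dvd_iff_le_cnt hPp hD0 (e - 1)).1 hd
  calc (m - 1) * e ≤ m * (e - 1) := by
        rw [Nat.sub_mul, Nat.mul_sub]
        omega
    _ ≤ _ := Nat.mul_le_mul_left m hle

theorem pow_dvd_discr {m : ℕ} (p : ℕ) (hp : p.Prime)
    (h : ∀ P : Ideal (𝓞 F), Prime P → P ∣ Ideal.span {((p : ℤ) : 𝓞 F)} →
      m ≤ cnt P (Ideal.span {((p : ℤ) : 𝓞 F)})) :
    p ^ (Module.finrank ℚ F * (m - 1)) ∣ (discr F).natAbs ^ m := by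
  have h1 := map_dvd Ideal.absNorm (pow_dvd_different p hp h)
  rw [map_pow, map_pow, absNorm_differentIdeal F (𝓞 F)] at h1
  have h2 : Ideal.absNorm (Ideal.span {((p : ℤ) : 𝓞 F)}) = p ^ Module.finrank ℚ F := by
    rw [Int.cast_natCast, Ideal.absNorm_span_natCast, RingOfIntegers.rank]
  rwa [h2, ← pow_mul] at h1

/-- The lower bound for the discriminant. -/
theorem sum_log_le_discr {m : ℕ} (hm : 1 ≤ m) (T : Finset ℕ) (hT : ∀ p ∈ T, p.Prime)
    (h : ∀ p ∈ T, ∀ P : Ideal (𝓞 F), Prime P → P ∣ Ideal.span {((p : ℤ) : 𝓞 F)} →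
      m ≤ cnt P (Ideal.span {((p : ℤ) : 𝓞 F)})) :
    (1 - 1 / (m : ℝ)) * ∑ p ∈ T, Real.log p ≤
      Real.log |(discr F : ℝ)| / Module.finrank ℚ F := by
  have h1 : ∏ p ∈ T, p ^ (Module.finrank ℚ F * (m - 1)) ∣ (discr F).natAbs ^ m := by
    apply Finset.prod_dvd_of_isRelPrime
    · intro p hp q hq hpq
      change IsRelPrime (p ^ _) (q ^ _)
      rw [← Nat.coprime_iff_isRelPrime]
      exact ((Nat.coprime_primes (hT p hp) (hT q hq)).2 hpq).pow _ _
    · intro p hp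
      exact pow_dvd_discr p (hT p hp) (h p hp)
  have hD : (discr F).natAbs ≠ 0 := Int.natAbs_ne_zero.2 (discr_ne_zero F)
  have h2 : ∏ p ∈ T, p ^ (Module.finrank ℚ F * (m - 1)) ≤ (discr F).natAbs ^ m :=
    Nat.le_of_dvd (pow_pos (Nat.pos_of_ne_zero hD) _) h1
  have h3 : Real.log ((∏ p ∈ T, p ^ (Module.finrank ℚ F * (m - 1)) : ℕ) : ℝ) ≤
      Real.log (((discr F).natAbs ^ m : ℕ) : ℝ) := by
    apply Real.log_le_log
    · exact_mod_cast prod_pos fun p hp => pow_pos (hT p hp).pos _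
    · exact_mod_cast h2
  rw [Nat.cast_prod, Real.log_prod (fun p hp => by
    exact_mod_cast pow_ne_zero _ (hT p hp).ne_zero), Nat.cast_pow, Real.log_pow,
    Nat.cast_natAbs, Int.cast_abs] at h3
  have h4 : ∑ p ∈ T, Real.log ((p ^ (Module.finrank ℚ F * (m - 1)) : ℕ) : ℝ) =
      (Module.finrank ℚ F * ((m : ℝ) - 1)) * ∑ p ∈ T, Real.log p := by
    rw [mul_sum]
    refine sum_congr rfl fun p _ => ?_
    rw [Nat.cast_pow, Real.log_pow, Nat.cast_mul, Nat.cast_sub hm, Nat.cast_one]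
  rw [h4] at h3
  have hN : (0 : ℝ) < Module.finrank ℚ F := by
    exact_mod_cast Module.finrank_pos (R := ℚ) (M := F)
  have hm0 : (0 : ℝ) < m := by exact_mod_cast hm
  rw [le_div_iff₀ hN]
  have h5 : (1 - 1 / (m : ℝ)) * (∑ p ∈ T, Real.log p) * Module.finrank ℚ F =
      (Module.finrank ℚ F * ((m : ℝ) - 1) * ∑ p ∈ T, Real.log p) / m := by
    field_simp
  rw [h5, div_le_iff₀ hm0]
  linarith

end Pool.Agent.H4Fermat
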