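import Mathlib

/-!
The height of a point with coprime integral coordinates over a number field, and of a point whose
coordinates are `m`-th roots.
-/

namespace Pool.Agent.H4Fermat

open Finset NumberField Height

variable {F : Type*} [Field F] [NumberField F]

theorem iSup_finitePlace {n : ℕ} [Nonempty (Fin n)] (z : Fin n → ℤ)
    (hz : ∀ g : ℤ, (∀ i, g ∣ z i) → IsUnit g) (v : FinitePlace F) :
    ⨆ i, v ((z i : F)) = 1 := by
  have hx : Finset.univ.gcd z = 1 := by
    have h1 := hz (Finset.univ.gcd z) (fun i => Finset.gcd_dvd (mem_univ i))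
    have h2 : normalize (Finset.univ.gcd z) = Finset.univ.gcd z := Finset.normalize_gcd
    rw [← h2]
    exact normalize_eq_one.2 h1
  have hv : IsNonarchimedean (v ·) := FinitePlace.add_le v
  have H (n : ℤ) : v n ≤ 1 := IsNonarchimedean.apply_intCast_le_one hv
  obtain ⟨f, hf⟩ := Finset.gcd_eq_sum_mul .univ z
  have hf' := congrArg (fun a : ℤ => v (a : F)) hf
  simp only [hx, Int.cast_one, map_one, Int.cast_sum, Int.cast_mul] at hf'
  replace hf' := hf'.trans_le hv.apply_sum_univ_le
  obtain ⟨i, hi⟩ := exists_eq_ciSup_of_finite (f := fun i ↦ v (z i * f i))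
  rw [← hi, map_mul] at hf'
  replace hf' : 1 ≤ v (z i) := hf'.trans <| mul_le_of_le_one_right (apply_nonneg v _) (H _)
  exact le_antisymm (ciSup_le (H <| z ·)) <| Finite.le_ciSup_of_le i hf'

theorem mulHeight_intCast {n : ℕ} [Nonempty (Fin n)] (z : Fin n → ℤ)
    (hz : ∀ g : ℤ, (∀ i, g ∣ z i) → IsUnit g) :
    mulHeight (fun i => (z i : F)) =
      ((univ.sup fun i => (z i).natAbs : ℕ) : ℝ) ^ Module.finrank ℚ F := by
  have hne : (fun i => (z i : F)) ≠ 0 := by
    intro h
    have h1 := hz 0 (fun i => by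
      have h2 := congrFun h i
      simp only [Pi.zero_apply] at h2
      rw [Int.cast_eq_zero.1 h2])
    exact not_isUnit_zero h1
  rw [NumberField.mulHeight_eq hne,
    finprod_eq_one_of_forall_eq_one (fun v => iSup_finitePlace z hz v), mul_one]
  have hinf : ∀ v : InfinitePlace F, ⨆ i, v ((z i : F)) =
      ((univ.sup fun i => (z i).natAbs : ℕ) : ℝ) := by
    intro v
    have hval : ∀ i, v ((z i : F)) = ((z i).natAbs : ℝ) := by
      intro i
      have h1 : v ((z i : F)) = |(z i : ℝ)| := by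
        rw [← InfinitePlace.norm_embedding_eq, map_intCast, Complex.norm_intCast]
      rw [h1, Nat.cast_natAbs, Int.cast_abs]
    simp only [hval]
    apply le_antisymm
    · apply ciSup_le
      intro i
      exact_mod_cast le_sup (f := fun i => (z i).natAbs) (mem_univ i)
    · obtain ⟨i, -, hi⟩ := exists_mem_eq_sup univ univ_nonempty (fun i => (z i).natAbs)
      rw [hi]
      exact le_ciSup (f := fun i => ((z i).natAbs : ℝ)) (Set.finite_range _).bddAbove i
  simp only [hinf]
  rw [prod_pow_eq_pow_sum, InfinitePlace.sum_mult_eq]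

theorem iSup_finitePlace_le {n : ℕ} [Nonempty (Fin n)] (z : Fin n → ℤ) (v : FinitePlace F) :
    ⨆ i, v ((z i : F)) ≤ 1 := by
  have hv : IsNonarchimedean (v ·) := FinitePlace.add_le v
  exact ciSup_le fun i => IsNonarchimedean.apply_intCast_le_one hv

theorem mulHeight_intCast_le {n : ℕ} [Nonempty (Fin n)] (z : Fin n → ℤ) (hz : z ≠ 0) (M : ℕ)
    (hM : ∀ i, (z i).natAbs ≤ M) :
    mulHeight (fun i => (z i : F)) ≤ (M : ℝ) ^ Module.finrank ℚ F := by
  have hne : (fun i => (z i : F)) ≠ 0 := by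
    intro h
    apply hz
    funext i
    have h2 := congrFun h i
    simp only [Pi.zero_apply] at h2
    exact Int.cast_eq_zero.1 h2
  rw [NumberField.mulHeight_eq hne]
  have hfin : (0 : ℝ) ≤ ∏ᶠ v : FinitePlace F, ⨆ i, v ((z i : F)) ∧
      ∏ᶠ v : FinitePlace F, ⨆ i, v ((z i : F)) ≤ 1 := by
    apply finprod_induction (fun x : ℝ => 0 ≤ x ∧ x ≤ 1)
    · exact ⟨zero_le_one, le_rfl⟩
    · intro x y hx hy
      exact ⟨mul_nonneg hx.1 hy.1, mul_le_one₀ hx.2 hy.1 hy.2⟩
    · intro v
      refine ⟨?_, iSup_finitePlace_le z v⟩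
      exact Real.iSup_nonneg fun i => apply_nonneg v _
  have hinf : ∀ v : InfinitePlace F, 0 ≤ ⨆ i, v ((z i : F)) ∧ ⨆ i, v ((z i : F)) ≤ M := by
    intro v
    have hval : ∀ i, v ((z i : F)) = ((z i).natAbs : ℝ) := by
      intro i
      have h1 : v ((z i : F)) = |(z i : ℝ)| := by
        rw [← InfinitePlace.norm_embedding_eq, map_intCast, Complex.norm_intCast]
      rw [h1, Nat.cast_natAbs, Int.cast_abs]
    simp only [hval]
    refine ⟨Real.iSup_nonneg fun i => Nat.cast_nonneg _, ?_⟩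
    apply ciSup_le
    intro i
    exact_mod_cast hM i
  calc (∏ v : InfinitePlace F, (⨆ i, v ((z i : F))) ^ v.mult) *
        ∏ᶠ v : FinitePlace F, ⨆ i, v ((z i : F))
      ≤ (∏ v : InfinitePlace F, (M : ℝ) ^ v.mult) * 1 := by
        apply mul_le_mul _ hfin.2 hfin.1 (by positivity)
        apply prod_le_prod
        · intro v _
          exact pow_nonneg (hinf v).1 _
        · intro v _
          exact pow_le_pow_left₀ (hinf v).1 (hinf v).2 _
    _ = _ := by
        rw [mul_one, prod_pow_eq_pow_sum, InfinitePlace.sum_mult_eq]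

/-- The height of a point with `a i * x i ^ m` proportional to the integers `z i`. -/
theorem logHeight_root_le {n : ℕ} [Nonempty (Fin n)] (m : ℕ) (hm : m ≠ 0) (a z : Fin n → ℤ)
    (ha : ∀ i, a i ≠ 0) (hz : z ≠ 0) (B : ℕ) (hB : 1 ≤ B) (hzB : ∀ i, |z i| ≤ B)
    (x : Fin n → F) (c : F) (hc : c ≠ 0) (hx : ∀ i, a i * x i ^ m = c * z i) :
    logHeight x / Module.finrank ℚ F ≤
      (Real.log B + Real.log ((∏ i, a i).natAbs : ℕ)) / m := by
  classical
  set Q : ℤ := ∏ i, a i with hQ
  have hQ0 : Q ≠ 0 := prod_ne_zero_iff.2 fun i _ => ha i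
  have h1 : logHeight (x ^ m) = m * logHeight x := logHeight_pow x m
  set w : Fin n → ℤ := fun i => z i * ∏ j ∈ univ.erase i, a j with hw
  have hsplit : ∀ i, a i * ∏ j ∈ univ.erase i, a j = Q := fun i => mul_prod_erase univ a (mem_univ i)
  have hQF : (Q : F) ≠ 0 := by exact_mod_cast hQ0
  have h2 : x ^ m = (c / (Q : F)) • fun i => (w i : F) := by
    funext i
    rw [Pi.pow_apply, Pi.smul_apply, smul_eq_mul, hw]
    have h3 : ((a i : ℤ) : F) ≠ 0 := by exact_mod_cast ha i
    have h4 : ((a i : ℤ) : F) * ((∏ j ∈ univ.erase i, a j : ℤ) : F) = (Q : F) := by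
      exact_mod_cast hsplit i
    have h5 := hx i
    rw [div_mul_eq_mul_div, eq_div_iff hQF, ← h4]
    push_cast at h5 ⊢
    linear_combination (∏ j ∈ univ.erase i, (a j : F)) * h5
  have hcQ : c / (Q : F) ≠ 0 := div_ne_zero hc hQF
  have hw0 : w ≠ 0 := by
    obtain ⟨i, hi⟩ := Function.ne_iff.1 hz
    intro h
    have h3 := congrFun h i
    rw [hw] at h3
    simp only [Pi.zero_apply] at h3 hi
    rcases mul_eq_zero.1 h3 with h4 | h4
    · exact hi h4
    · exact (prod_ne_zero_iff.2 fun j _ => ha j) h4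
  have hwM : ∀ i, (w i).natAbs ≤ B * Q.natAbs := by
    intro i
    rw [hw]
    simp only [Int.natAbs_mul]
    apply Nat.mul_le_mul
    · have := hzB i
      zify
      exact this
    · rw [← hsplit i, Int.natAbs_mul]
      exact Nat.le_mul_of_pos_left _ (Int.natAbs_pos.2 (ha i))
  rw [h2, logHeight_smul_eq_logHeight _ hcQ, logHeight_eq_log_mulHeight] at h1
  have h3 := mulHeight_intCast_le (F := F) w hw0 _ hwM
  have h4 : Real.log (mulHeight fun i => (w i : F)) ≤
      Module.finrank ℚ F * (Real.log B + Real.log (Q.natAbs : ℕ)) := by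
    have hpos : 0 < mulHeight (fun i => (w i : F)) := mulHeight_pos _
    refine (Real.log_le_log hpos h3).trans ?_
    rw [Real.log_pow, Nat.cast_mul, Real.log_mul]
    · exact_mod_cast (by omega : B ≠ 0)
    · exact_mod_cast Int.natAbs_ne_zero.2 hQ0
  have hN : (0 : ℝ) < (Module.finrank ℚ F : ℝ) := by
    exact_mod_cast (Module.finrank_pos (R := ℚ) (M := F))
  have hm' : (0 : ℝ) < (m : ℝ) := by exact_mod_cast Nat.pos_of_ne_zero hm
  rw [div_le_div_iff₀ hN hm']
  rw [h1] at h4
  linarith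

end Pool.Agent.H4Fermat
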