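import Pool.Agent.H4Fermat.Count
import Pool.Agent.H4Fermat.Disc
import Pool.Agent.H4Fermat.Height

/-!
The count of the rational points of the hyperplane over which the Fermat hypersurface has a point
violating the inequality.
-/

namespace Pool.Agent.H4Fermat

open Finset Pool.Agent.H4Cnt NumberField

theorem mainB (t : ℕ) (ht : 1 ≤ t) (m : ℕ) (hm : 1 ≤ m) (ρ C δ : ℝ) (hδ : 0 < δ) :
    ∃ A : ℝ, ∀ B : ℕ, 1 ≤ B → ∀ V : Finset (Fin (t + 1) → ℤ),
      (∀ z ∈ V, IsPt z ∧ (∀ i, |z i| ≤ B) ∧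
        ∑ p ∈ bad m z, Real.log p ≤ ρ * Real.log B + C) →
      (V.card : ℝ) ≤
        A * (B : ℝ) ^ ((1 - 1 / ((t + 1).choose ((t + 1) / 2) : ℝ)) * ρ + t / m + δ) := by
  set θ : ℝ := 1 - 1 / ((t + 1).choose ((t + 1) / 2) : ℝ) with hθ
  have hM : (1 : ℝ) ≤ (t + 1).choose ((t + 1) / 2) := by
    exact_mod_cast Nat.choose_pos (Nat.div_le_self (t + 1) 2)
  have hθ0 : 0 ≤ θ := by
    rw [hθ, sub_nonneg]
    exact div_le_one_of_le₀ hM (by linarith)
  have hm0 : (0 : ℝ) < m := by exact_mod_cast hm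
  set δ' : ℝ := δ / ((2 * t + 3) * (t + 1)) with hδ'
  have hδ'0 : 0 < δ' := by positivity
  obtain ⟨A, hA1, hA⟩ := rankin δ' hδ'0
  refine ⟨(t + 1).factorial * Real.exp (θ * C) * ((2 * A) ^ t *
    ((((t : ℝ) + 1) ^ (t + 1)) ^ δ') ^ t), ?_⟩
  intro B hB V hV
  have hB0 : (0 : ℝ) < B := by exact_mod_cast hB
  have hB1 : (1 : ℝ) ≤ B := by exact_mod_cast hB
  set y : ℝ := Real.exp (θ * (ρ * Real.log B + C)) with hy
  set Y : ℕ := ⌊y⌋₊ with hY
  set k : ℝ := 2 * (A * ((B : ℝ) ^ δ' * (bigX t B : ℝ) ^ δ')) with hk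
  set K : ℕ := ⌊k⌋₊ with hK
  set r : ℝ := (B : ℝ) ^ (1 / (m : ℝ)) with hr
  set U : ℕ := ⌊r⌋₊ with hU
  have hr0 : 0 ≤ r := Real.rpow_nonneg hB0.le _
  have hX0 : 0 < bigX t B := by
    unfold bigX
    positivity
  have hk0 : 0 ≤ k := by
    rw [hk]
    positivity
  have hUu : ∀ u : ℕ, u ^ m ≤ B → u ≤ U := by
    intro u hu
    rw [hU, Nat.le_floor_iff hr0, hr]
    have h1 : ((u : ℝ) ^ m) ≤ B := by exact_mod_cast hu
    have h2 : ((u : ℝ) ^ m) ^ (1 / (m : ℝ)) ≤ (B : ℝ) ^ (1 / (m : ℝ)) :=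
      Real.rpow_le_rpow (by positivity) h1 (by positivity)
    rwa [one_div, Real.pow_rpow_inv_natCast (Nat.cast_nonneg u) (by omega), ← one_div] at h2
  have hKb : ∀ E, 0 < E → E ≤ bigX t B → (smoothZ E B).card ≤ K := by
    intro E hE hEX
    rw [hK, Nat.le_floor_iff hk0]
    have h1 : ((smoothZ E B).card : ℝ) ≤ 2 * (smoothN E B).card := by
      exact_mod_cast card_smoothZ_le E B
    refine h1.trans ?_
    rw [hk]
    apply mul_le_mul_of_nonneg_left _ (by norm_num)
    refine (hA E B hE).trans ?_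
    apply mul_le_mul_of_nonneg_left _ (by linarith)
    apply mul_le_mul_of_nonneg_left _ (Real.rpow_nonneg hB0.le _)
    apply Real.rpow_le_rpow (Nat.cast_nonneg E) _ hδ'0.le
    exact_mod_cast hEX
  have hcard := card_leB ht m hm B U Y K hB hUu hKb V (by
    intro z hz
    obtain ⟨h1, h2, h3⟩ := hV z hz
    refine ⟨h1, h2, ?_⟩
    intro σ hσ
    rw [hY, Nat.le_floor_iff (Real.exp_pos _).le]
    have h5 : Real.log (costB m z σ) ≤ θ * (ρ * Real.log B + C) :=
      hσ.trans (mul_le_mul_of_nonneg_left h3 hθ0)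
    exact (Real.log_le_iff_le_exp (by exact_mod_cast costB_pos m z σ)).1 h5)
  have hcard' : (V.card : ℝ) ≤ ((K : ℝ) * U) ^ t * ((t + 1).factorial * Y) := by
    exact_mod_cast hcard
  have hKk : (K : ℝ) ≤ k := Nat.floor_le hk0
  have hUr : (U : ℝ) ≤ r := Nat.floor_le hr0
  have hYy : (Y : ℝ) ≤ y := Nat.floor_le (Real.exp_pos _).le
  have hstep : (V.card : ℝ) ≤ (k * r) ^ t * ((t + 1).factorial * y) := by
    refine hcard'.trans ?_
    apply mul_le_mul
    · apply pow_le_pow_left₀ (by positivity)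
      exact mul_le_mul hKk hUr (Nat.cast_nonneg _) hk0
    · exact mul_le_mul_of_nonneg_left hYy (Nat.cast_nonneg _)
    · positivity
    · positivity
  refine hstep.trans ?_
  have hy2 : y = Real.exp (θ * C) * (B : ℝ) ^ (θ * ρ) := by
    rw [hy, Real.rpow_def_of_pos hB0, ← Real.exp_add]
    congr 1
    ring
  have hX2 : (bigX t B : ℝ) = ((t : ℝ) + 1) ^ (t + 1) * (B : ℝ) ^ (2 * t + 2) := by
    unfold bigX
    push_cast
    rw [mul_pow]
    ring
  have hk2 : k = 2 * A * (((t : ℝ) + 1) ^ (t + 1)) ^ δ' * (B : ℝ) ^ (δ' * (2 * t + 3)) := by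
    rw [hk, hX2, Real.mul_rpow (by positivity) (by positivity), ← Real.rpow_natCast (B : ℝ),
      ← Real.rpow_mul hB0.le]
    have : (B : ℝ) ^ (δ' * (2 * t + 3)) = (B : ℝ) ^ δ' * (B : ℝ) ^ (((2 * t + 2 : ℕ) : ℝ) * δ') := by
      rw [← Real.rpow_add hB0]
      congr 1
      push_cast
      ring
    rw [this]
    ring
  have hkt : k ^ t ≤ (2 * A) ^ t * ((((t : ℝ) + 1) ^ (t + 1)) ^ δ') ^ t * (B : ℝ) ^ δ := by
    rw [hk2, mul_pow, mul_pow, ← Real.rpow_natCast ((B : ℝ) ^ (δ' * (2 * t + 3))),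
      ← Real.rpow_mul hB0.le]
    apply mul_le_mul_of_nonneg_left _ (by positivity)
    apply Real.rpow_le_rpow_of_exponent_le hB1
    rw [hδ']
    have h1 : δ / ((2 * (t : ℝ) + 3) * (t + 1)) * (2 * t + 3) * t = δ * (t / (t + 1)) := by
      field_simp
    rw [h1]
    have h2 : (t : ℝ) / (t + 1) ≤ 1 := by
      rw [div_le_one (by positivity)]
      linarith
    nlinarith
  have hrt : r ^ t = (B : ℝ) ^ ((t : ℝ) / m) := by
    rw [hr, ← Real.rpow_natCast, ← Real.rpow_mul hB0.le]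
    congr 1
    ring
  rw [mul_pow, hrt]
  calc k ^ t * (B : ℝ) ^ ((t : ℝ) / m) * ((t + 1).factorial * y)
      ≤ ((2 * A) ^ t * ((((t : ℝ) + 1) ^ (t + 1)) ^ δ') ^ t * (B : ℝ) ^ δ) *
          (B : ℝ) ^ ((t : ℝ) / m) * ((t + 1).factorial * y) := by
        apply mul_le_mul_of_nonneg_right _ (by positivity)
        exact mul_le_mul_of_nonneg_right hkt (by positivity)
    _ = _ := by
        rw [hy2, Real.rpow_add hB0, Real.rpow_add hB0]
        ring

/-- The sum of `log p` over the bad primes is bounded by the discriminant. -/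
theorem sum_bad_le {n : ℕ} (hn : 2 ≤ n) {m : ℕ} (hm : 2 ≤ m) {a z : Fin n → ℤ}
    (ha : ∀ i, a i ≠ 0) (hz : IsPt z)
    {F : Type} [Field F] [NumberField F] (x : Fin n → F) (c : F) (hc : c ≠ 0)
    (hx : ∀ i, a i * x i ^ m = c * z i) :
    (1 - 1 / (m.minFac : ℝ)) * (∑ p ∈ bad m z, Real.log p - Real.log ((∏ i, a i).natAbs : ℕ)) ≤
      Real.log |(discr F : ℝ)| / Module.finrank ℚ F := by
  classical
  have hm0 : m ≠ 0 := by omega
  set Q : ℤ := ∏ i, a i with hQ
  have hQ0 : Q ≠ 0 := prod_ne_zero_iff.2 fun i _ => ha i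
  have hq : 1 ≤ m.minFac := Nat.minFac_pos m
  have hle : (1 - 1 / (m.minFac : ℝ)) * ∑ p ∈ bad m z with ¬ p ∣ Q.natAbs, Real.log p ≤
      Real.log |(discr F : ℝ)| / Module.finrank ℚ F := by
    apply sum_log_le_discr hq
    · intro p hp
      rw [mem_filter] at hp
      exact bad_prime m z p hp.1
    intro p hp P hP hpP
    rw [mem_filter] at hp
    obtain ⟨hp, hpQ⟩ := hp
    have hpp := bad_prime m z p hp
    have : Fact p.Prime := ⟨hpp⟩
    have hpa : ∀ i, ¬ (p : ℤ) ∣ a i := by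
      intro i hi
      apply hpQ
      rw [← Int.natCast_dvd]
      exact hi.trans (dvd_prod_of_mem a (mem_univ i))
    unfold bad at hp
    rw [mem_filter] at hp
    obtain ⟨-, i, hi⟩ := hp
    obtain ⟨j, hj⟩ : ∃ j, ¬ (p : ℤ) ∣ z j := by
      by_contra hcon
      push Not at hcon
      have := hz.cop p hcon
      rw [Int.isUnit_iff] at this
      have h2 := hpp.two_le
      omega
    have hj0 : z j ≠ 0 := hz.ne_zero hn j
    have hi0 : z i ≠ 0 := hz.ne_zero hn i
    have hxj : x j ≠ 0 := by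
      intro h
      have h1 := hx j
      rw [h, zero_pow hm0, mul_zero] at h1
      rcases mul_eq_zero.1 h1.symm with h2 | h2
      · exact hc h2
      · exact hj0 (by exact_mod_cast h2)
    apply minFac_le_cnt hm0 (mul_ne_zero hi0 (ha j)) (mul_ne_zero (ha i) hj0) (x i / x j) _ hP p hpp
      hpP
    · rw [padicValInt.mul hi0 (ha j), padicValInt.mul (ha i) hj0,
        padicValInt.eq_zero_of_not_dvd hj, padicValInt.eq_zero_of_not_dvd (hpa i),
        padicValInt.eq_zero_of_not_dvd (hpa j)]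
      simpa using (by exact_mod_cast hi : ¬ (m : ℤ) ∣ padicValInt p (z i))
    · have h1 : (z j : F) ≠ 0 := by exact_mod_cast hj0
      have h2 : (a i : F) ≠ 0 := by exact_mod_cast ha i
      have h3 : (a j : F) ≠ 0 := by exact_mod_cast ha j
      have h4 : x j ^ m ≠ 0 := pow_ne_zero _ hxj
      rw [div_pow, div_mul_eq_mul_div, div_eq_iff h4]
      push_cast
      have h5 := hx i
      have h6 := hx j
      linear_combination (z j : F) * h5 - (z i : F) * h6
  have hsplit := sum_filter_add_sum_filter_not (bad m z) (fun p => p ∣ Q.natAbs)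
    (fun p => Real.log (p : ℝ))
  have hsmall : ∑ p ∈ bad m z with p ∣ Q.natAbs, Real.log p ≤ Real.log (Q.natAbs : ℕ) := by
    rw [← Real.log_prod (fun p hp => by
      rw [mem_filter] at hp
      exact_mod_cast (bad_prime m z p hp.1).ne_zero), ← Nat.cast_prod]
    have hd : (∏ p ∈ bad m z with p ∣ Q.natAbs, p) ∣ Q.natAbs := by
      apply Finset.prod_primes_dvd
      · intro p hp
        rw [mem_filter] at hp
        exact (bad_prime m z p hp.1).prime
      · intro p hp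
        rw [mem_filter] at hp
        exact hp.2
    apply Real.log_le_log
    · exact_mod_cast prod_pos fun p hp => by
        rw [mem_filter] at hp
        exact (bad_prime m z p hp.1).pos
    · exact_mod_cast Nat.le_of_dvd (Int.natAbs_pos.2 hQ0) hd
  refine le_trans ?_ hle
  apply mul_le_mul_of_nonneg_left
  · linarith
  · rw [sub_nonneg]
    apply div_le_one_of_le₀
    · exact_mod_cast hq
    · exact Nat.cast_nonneg _

end Pool.Agent.H4Fermat
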