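import Pool.Agent.H4Fermat.Main

/-!
# Vojta's inequality for the algebraic points of a diagonal hypersurface over rational points

Let `X` be the smooth hypersurface `a_1 x_1 ^ m + … + a_n x_n ^ m = 0` over `ℚ`, with `m > n`, so
that `K_X = (m - n) H` is ample. The morphism `x ↦ (a_i x_i ^ m)` maps `X` onto the hyperplane
`z_1 + … + z_n = 0`. We consider the closed points `P` of `X` over the rational points `z` of the
hyperplane without vanishing subsums; their residue fields have degree at most `m ^ (n - 1)`. We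
bound the number of the `z` of height at most `log B` over which there is a `P` with
`(m - n) h(P) ≥ d(P) + ε h(P) + C`, for `ε ≤ m - n`.
-/

namespace Pool.Agent.Results.MP_9b9442_nt.FermatKummerPoints

open NumberField

/-- Primitive integral vectors with sum zero and no vanishing proper subsum (so all coordinates are
non-zero): the rational points of the hyperplane without vanishing subsums, up to sign. -/
structure IsPoint {n : ℕ} (z : Fin n → ℤ) : Prop where
  sum_eq_zero : ∑ i, z i = 0
  subsum_ne_zero : ∀ I : Finset (Fin n), I.Nonempty → I ≠ Finset.univ → ∑ i ∈ I, z i ≠ 0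
  primitive : ∀ g : ℤ, (∀ i, g ∣ z i) → IsUnit g

/-- The logarithm of the largest absolute value of the `z i`. -/
noncomputable def height {n : ℕ} (z : Fin n → ℤ) : ℝ :=
  Real.log ((Finset.univ.sup fun i => (z i).natAbs : ℕ) : ℝ)

/-- The homogeneous coordinates `x`, with values in the number field `F`, are those of a point over
`z` (the `a i * x i ^ m` are proportional to the `z i`) and `F` is generated by the quotients of
the `x i`: so `[x]` gives a closed point over `z` of the hypersurface `∑ a i * x i ^ m = 0`, with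
residue field `F`, and every closed point over `z` arises in this way. -/
structure IsPointOver {n : ℕ} (m : ℕ) (a z : Fin n → ℤ) (F : Type) [Field F] [NumberField F]
    (x : Fin n → F) : Prop where
  pow_eq : ∃ c : F, c ≠ 0 ∧ ∀ i, a i * x i ^ m = c * z i
  residueField : IntermediateField.adjoin ℚ (Set.range fun p : Fin n × Fin n => x p.1 / x p.2) = ⊤

/-- The logarithmic discriminant over `ℚ` of a closed point with residue field `F`. -/
noncomputable def logDisc (F : Type) [Field F] [NumberField F] : ℝ :=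
  Real.log |(discr F : ℝ)| / Module.finrank ℚ F

/-- The absolute logarithmic height of the point with homogeneous coordinates `x`. -/
noncomputable def absHeight {n : ℕ} {F : Type} [Field F] [NumberField F] (x : Fin n → F) : ℝ :=
  Height.logHeight x / Module.finrank ℚ F

/-- The points `z` of height at most `log B` over which there is a closed point `P` of the
hypersurface with `d(P) + ε h(P) + C ≤ (m - n) h(P)`. -/
def violators (n m : ℕ) (a : Fin n → ℤ) (ε C : ℝ) (B : ℕ) : Set (Fin n → ℤ) :=
  {z | IsPoint z ∧ height z ≤ Real.log B ∧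
    ∃ (F : Type) (_ : Field F) (_ : NumberField F) (x : Fin n → F), IsPointOver m a z F x ∧
      logDisc F + ε * absHeight x + C ≤ ((m : ℝ) - n) * absHeight x}

theorem result (n : ℕ) (hn : 3 ≤ n) (m : ℕ) (hmn : n < m) (a : Fin n → ℤ) (ha : ∀ i, a i ≠ 0)
    (ε C δ : ℝ) (hε : ε ≤ (m : ℝ) - n) (hδ : 0 < δ) :
    ∃ A : ℝ, ∀ B : ℕ, 1 ≤ B → (violators n m a ε C B).Finite ∧
      ((violators n m a ε C B).ncard : ℝ) ≤
        A * (B : ℝ) ^ ((1 - 1 / (n.choose (n / 2) : ℝ)) *
          (((m : ℝ) - n - ε) / (m * (1 - 1 / (m.minFac : ℝ)))) + ((n : ℝ) - 1) / m + δ) := by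
  obtain ⟨t, rfl⟩ := Nat.exists_eq_add_of_le' (show 1 ≤ n by omega)
  have hm2 : 2 ≤ m := by omega
  have hm0 : (0 : ℝ) < m := by exact_mod_cast (by omega : 0 < m)
  have hq2 : (2 : ℝ) ≤ m.minFac := by
    exact_mod_cast (Nat.minFac_prime (by omega : m ≠ 1)).two_le
  set κ : ℝ := 1 - 1 / (m.minFac : ℝ) with hκ
  have hκ0 : 0 < κ := by
    rw [hκ, sub_pos, div_lt_one (by linarith)]
    linarith
  set μ : ℝ := (m : ℝ) - (t + 1 : ℕ) - ε with hμ
  have hμ0 : 0 ≤ μ := by
    rw [hμ]
    linarith
  set L : ℝ := Real.log ((∏ i, a i).natAbs : ℕ) with hL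
  obtain ⟨A, hA⟩ := H4Fermat.mainB t (by omega) m (by omega) (μ / (m * κ))
    (L + (μ * L / m - C) / κ) δ hδ
  refine ⟨A, fun B hB => ?_⟩
  have hB1 : (1 : ℝ) ≤ B := by exact_mod_cast hB
  have hbox : ∀ z : Fin (t + 1) → ℤ, IsPoint z → height z ≤ Real.log B → ∀ i, |z i| ≤ B := by
    intro z hz hh i
    have h0 : z i ≠ 0 := by
      have h := hz.subsum_ne_zero {i} (Finset.singleton_nonempty i) (by
        intro h
        have := congrArg Finset.card h
        rw [Finset.card_singleton, Finset.card_univ, Fintype.card_fin] at this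
        omega)
      simpa using h
    have h1 : (z i).natAbs ≤ (Finset.univ.sup fun i => (z i).natAbs : ℕ) :=
      Finset.le_sup (f := fun i => (z i).natAbs) (Finset.mem_univ i)
    have h2 : 0 < (Finset.univ.sup fun i => (z i).natAbs : ℕ) :=
      lt_of_lt_of_le (Int.natAbs_pos.2 h0) h1
    have h3 : (Finset.univ.sup fun i => (z i).natAbs : ℕ) ≤ B := by
      have h4 := (Real.log_le_log_iff (by exact_mod_cast h2) (by exact_mod_cast hB)).1 hh
      exact_mod_cast h4
    have h5 := h1.trans h3
    zify at h5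
    exact h5
  have hfin : (violators (t + 1) m a ε C B).Finite := by
    apply (Set.finite_Icc (fun _ => -(B : ℤ) : Fin (t + 1) → ℤ) (fun _ => (B : ℤ))).subset
    rintro z ⟨h1, h2, -⟩
    have h3 := hbox z h1 h2
    exact ⟨fun i => (abs_le.1 (h3 i)).1, fun i => (abs_le.1 (h3 i)).2⟩
  refine ⟨hfin, ?_⟩
  rw [Set.ncard_eq_toFinset_card _ hfin]
  have hexp : (((t + 1 : ℕ) : ℝ) - 1) / m = t / m := by
    push_cast
    ring
  rw [hexp]
  apply hA B hB
  intro z hz
  rw [Set.Finite.mem_toFinset] at hz
  obtain ⟨h1, h2, F, _, _, x, ⟨⟨c, hc, hx⟩, -⟩, hv⟩ := hz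
  have hpt : H4Cnt.IsPt z := ⟨h1.sum_eq_zero, h1.subsum_ne_zero, h1.primitive⟩
  have hzB := hbox z h1 h2
  refine ⟨hpt, hzB, ?_⟩
  have hz0 : z ≠ 0 := by
    intro h
    have := hpt.ne_zero (by omega) 0
    rw [h] at this
    exact this rfl
  have hS := H4Fermat.sum_bad_le (by omega) hm2 ha hpt x c hc hx
  have hH := H4Fermat.logHeight_root_le m (by omega) a z ha hz0 B hB hzB x c hc hx
  unfold logDisc absHeight at hv
  set S : ℝ := ∑ p ∈ H4Fermat.bad m z, Real.log p with hSdef
  set X : ℝ := Height.logHeight x / Module.finrank ℚ F with hX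
  set D : ℝ := Real.log |(discr F : ℝ)| / Module.finrank ℚ F with hD
  have h4 : μ * X ≤ μ * ((Real.log B + L) / m) := mul_le_mul_of_nonneg_left hH hμ0
  have h5 : D + C ≤ μ * X := by
    rw [hμ]
    linarith
  have h6 : κ * (S - L) ≤ μ * ((Real.log B + L) / m) - C := by linarith
  have h7 : S - L ≤ (μ * ((Real.log B + L) / m) - C) / κ := by
    rw [le_div_iff₀ hκ0]
    linarith
  have h8 : μ / (m * κ) * Real.log B + (L + (μ * L / m - C) / κ) =
      L + (μ * ((Real.log B + L) / m) - C) / κ := by
    field_simp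
    ring
  rw [h8]
  linarith

end Pool.Agent.Results.MP_9b9442_nt.FermatKummerPoints
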